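import Mathlib
import Pool.Agent.H.MP_f7d718_lc.F

namespace Pool.Agent.Results.MP_f7d718_lc.Main

open Pool.Agent.H.MP_f7d718_lc

theorem result : BiRed Minimal ∧ BiRed Transitive := by
  refine ⟨bired _ fun _ h => h, bired _ fun T h U V _ hV ⟨x, hx⟩ hne => ?_⟩
  obtain ⟨_, h1, n, rfl⟩ := (h x).inter_open_nonempty V hV hne
  exact ⟨n, _, ⟨x, hx, rfl⟩, h1⟩

end Pool.Agent.Results.MP_f7d718_lc.Main
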